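import Mathlib

/-!
# The bounded difference inequality for fair bits
-/

set_option autoImplicit false

namespace Pool.Agent.K4H88.RC

open Finset

theorem sum_cons {m : ℕ} (F : (Fin (m + 1) → Bool) → ℝ) :
    ∑ c, F c = ∑ c : Fin m → Bool, (F (Fin.cons true c) + F (Fin.cons false c)) := by
  rw [← (Fin.consEquiv (fun _ => Bool)).sum_comp, Fintype.sum_prod_type_right]
  refine sum_congr rfl fun c _ => ?_
  rw [Fintype.sum_bool]
  rfl

theorem mgf_fin (l d : ℝ) : ∀ (m : ℕ) (f : (Fin m → Bool) → ℝ),
    (∀ c i, |f (Function.update c i true) - f (Function.update c i false)| ≤ d) →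
    ∑ c, Real.exp (l * ((∑ c, f c) / 2 ^ m - f c)) ≤ 2 ^ m * Real.exp (m * (l ^ 2 * d ^ 2 / 8)) := by
  intro m
  induction m with
  | zero =>
    intro f _
    simp
  | succ m ih =>
    intro f hf
    set g : (Fin m → Bool) → ℝ := fun c => (f (Fin.cons true c) + f (Fin.cons false c)) / 2
      with hg
    have hgd : ∀ c i, |g (Function.update c i true) - g (Function.update c i false)| ≤ d := by
      intro c i
      have h1 := hf (Fin.cons true c) i.succ
      have h2 := hf (Fin.cons false c) i.succ
      simp only [← Fin.cons_update] at h1 h2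
      rw [abs_le] at h1 h2 ⊢
      simp only [hg]
      constructor <;> linarith [h1.1, h1.2, h2.1, h2.2]
    have hmean : (∑ c, f c) / 2 ^ (m + 1) = (∑ c, g c) / 2 ^ m := by
      rw [sum_cons, hg, ← sum_div, pow_succ]
      field_simp
    have hih := ih g hgd
    rw [hmean, sum_cons]
    set μ := (∑ c, g c) / 2 ^ m with hμ
    have hd0 : ∀ c : Fin m → Bool, |f (Fin.cons true c) - f (Fin.cons false c)| ≤ d := by
      intro c
      have h1 := hf (Fin.cons true c) 0
      simp only [Fin.update_cons_zero] at h1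
      exact h1
    have key : ∀ c : Fin m → Bool,
        Real.exp (l * (μ - f (Fin.cons true c))) + Real.exp (l * (μ - f (Fin.cons false c))) ≤
          2 * Real.exp (l ^ 2 * d ^ 2 / 8) * Real.exp (l * (μ - g c)) := by
      intro c
      set D := f (Fin.cons true c) - f (Fin.cons false c) with hD
      have e1 : Real.exp (l * (μ - f (Fin.cons true c))) +
          Real.exp (l * (μ - f (Fin.cons false c))) =
          2 * Real.cosh (l * D / 2) * Real.exp (l * (μ - g c)) := by
        rw [Real.cosh_eq, show 2 * ((Real.exp (l * D / 2) + Real.exp (-(l * D / 2))) / 2) *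
          Real.exp (l * (μ - g c)) = Real.exp (-(l * D / 2)) * Real.exp (l * (μ - g c)) +
          Real.exp (l * D / 2) * Real.exp (l * (μ - g c)) by ring, ← Real.exp_add,
          ← Real.exp_add]
        congr 2
        · simp only [hD, hg]
          ring
        · simp only [hD, hg]
          ring
      rw [e1]
      have e2 : Real.cosh (l * D / 2) ≤ Real.exp (l ^ 2 * d ^ 2 / 8) := by
        refine (Real.cosh_le_exp_half_sq _).trans (Real.exp_le_exp.2 ?_)
        have h3 : D ^ 2 ≤ d ^ 2 := by
          rw [← sq_abs D]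
          exact pow_le_pow_left₀ (abs_nonneg _) (hd0 c) 2
        nlinarith [mul_le_mul_of_nonneg_left h3 (sq_nonneg l)]
      gcongr
    calc ∑ c : Fin m → Bool, (Real.exp (l * (μ - f (Fin.cons true c))) +
          Real.exp (l * (μ - f (Fin.cons false c))))
        ≤ ∑ c : Fin m → Bool, 2 * Real.exp (l ^ 2 * d ^ 2 / 8) * Real.exp (l * (μ - g c)) :=
          sum_le_sum fun c _ => key c
      _ = 2 * Real.exp (l ^ 2 * d ^ 2 / 8) * ∑ c : Fin m → Bool, Real.exp (l * (μ - g c)) := by
          rw [mul_sum]
      _ ≤ 2 * Real.exp (l ^ 2 * d ^ 2 / 8) * (2 ^ m * Real.exp (m * (l ^ 2 * d ^ 2 / 8))) := by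
          gcongr
      _ = 2 ^ (m + 1) * Real.exp ((m + 1 : ℕ) * (l ^ 2 * d ^ 2 / 8)) := by
          push_cast
          rw [add_mul, one_mul, Real.exp_add, pow_succ]
          ring

theorem mgf {ι : Type} [Fintype ι] [DecidableEq ι] (l d : ℝ) (f : (ι → Bool) → ℝ)
    (hf : ∀ c i, |f (Function.update c i true) - f (Function.update c i false)| ≤ d) :
    ∑ c, Real.exp (l * ((∑ c, f c) / 2 ^ Fintype.card ι - f c)) ≤
      2 ^ Fintype.card ι * Real.exp (Fintype.card ι * (l ^ 2 * d ^ 2 / 8)) := by
  set e := Fintype.equivFin ι with he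
  set E : (Fin (Fintype.card ι) → Bool) ≃ (ι → Bool) := e.symm.arrowCongr (Equiv.refl Bool) with hE
  have hEa : ∀ c i, E c i = c (e i) := fun c i => rfl
  have hup : ∀ (c : Fin (Fintype.card ι) → Bool) (i : Fin (Fintype.card ι)) (b : Bool),
      E (Function.update c i b) = Function.update (E c) (e.symm i) b := by
    intro c i b
    funext j
    rw [hEa]
    by_cases h : j = e.symm i
    · subst h
      rw [Function.update_self, Equiv.apply_symm_apply, Function.update_self]
    · have h' : e j ≠ i := fun h' => h (by rw [← h', Equiv.symm_apply_apply])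
      rw [Function.update_of_ne h, Function.update_of_ne h', hEa]
  have h := mgf_fin l d (Fintype.card ι) (fun c => f (E c)) (fun c i => by
    rw [hup, hup]
    exact hf _ _)
  rw [E.sum_comp f] at h
  rwa [E.sum_comp (fun c => Real.exp (l * ((∑ c, f c) / 2 ^ Fintype.card ι - f c)))] at h

/-- **bounded differences**: the lower tail -/
theorem tail {ι : Type} [Fintype ι] [DecidableEq ι] {d t : ℝ} (hd : 0 < d) (ht : 0 ≤ t)
    (hι : 0 < Fintype.card ι) (f : (ι → Bool) → ℝ)
    (hf : ∀ c i, |f (Function.update c i true) - f (Function.update c i false)| ≤ d) :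
    ((univ.filter (fun c => f c ≤ (∑ c, f c) / 2 ^ Fintype.card ι - t)).card : ℝ) ≤
      2 ^ Fintype.card ι * Real.exp (-(2 * t ^ 2 / (Fintype.card ι * d ^ 2))) := by
  set n : ℝ := (Fintype.card ι : ℝ) with hn
  have hn0 : 0 < n := by
    rw [hn]
    exact_mod_cast hι
  set μ := (∑ c, f c) / 2 ^ Fintype.card ι with hμ
  set l : ℝ := 4 * t / (n * d ^ 2) with hl
  have hl0 : 0 ≤ l := by positivity
  have h1 := mgf l d f hf
  have h2 : ((univ.filter (fun c => f c ≤ μ - t)).card : ℝ) * Real.exp (l * t) ≤
      ∑ c, Real.exp (l * (μ - f c)) := by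
    rw [← nsmul_eq_mul, ← sum_const]
    refine (sum_le_sum fun c hc => ?_).trans
      (sum_le_sum_of_subset_of_nonneg (filter_subset (fun c => f c ≤ μ - t) univ)
        fun _ _ _ => (Real.exp_pos _).le)
    have := (mem_filter.1 hc).2
    apply Real.exp_le_exp.2
    apply mul_le_mul_of_nonneg_left _ hl0
    linarith
  have h3 := h2.trans h1
  have h4 : (n * (l ^ 2 * d ^ 2 / 8)) = 2 * t ^ 2 / (n * d ^ 2) := by
    rw [hl]
    field_simp
    ring
  have h5 : l * t = 4 * t ^ 2 / (n * d ^ 2) := by
    rw [hl]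
    ring
  rw [h4, h5, ← le_div_iff₀ (Real.exp_pos _), mul_div_assoc, ← Real.exp_sub] at h3
  refine h3.trans (le_of_eq ?_)
  congr 2
  ring

end Pool.Agent.K4H88.RC
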