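import Mathlib
import Pool.Agent.K4H88.SP.Main

/-!
# Vertex-transitive graphs: colourings by translates of an independent set
-/

set_option autoImplicit false

namespace Pool.Agent.K4H88.RC

open SimpleGraph Finset Classical Pool.Agent.TH507.Host Pool.Agent.R34.Ident
open Pool.Agent.K4H88.SP

/-- the automorphism group is transitive on the vertices -/
def Trans {V : Type} (G : SimpleGraph V) : Prop := ∀ x y : V, ∃ φ : G ≃g G, φ x = y

variable {V : Type} [Fintype V]

/-- the automorphisms -/
noncomputable def auts (G : SimpleGraph V) : Finset (Equiv.Perm V) :=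
  univ.filter (fun σ => ∀ x y, G.Adj (σ x) (σ y) ↔ G.Adj x y)

/-- the automorphisms which map `y` to `x` -/
noncomputable def wt (G : SimpleGraph V) (x y : V) : ℕ :=
  ((auts G).filter (fun σ => σ y = x)).card

theorem wt_le {G : SimpleGraph V} (hG : Trans G) (x y x' y' : V) : wt G x y ≤ wt G x' y' := by
  obtain ⟨τ, hτ⟩ := hG x x'
  obtain ⟨ρ, hρ⟩ := hG y' y
  unfold wt
  refine card_le_card_of_injOn (fun σ => (ρ.toEquiv.trans σ).trans τ.toEquiv) ?_ ?_
  · intro σ hσ
    rw [mem_coe, mem_filter, auts, mem_filter] at hσ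
    rw [mem_coe, mem_filter, auts, mem_filter]
    refine ⟨⟨mem_univ _, fun a b => ?_⟩, ?_⟩
    · show G.Adj (τ (σ (ρ a))) (τ (σ (ρ b))) ↔ G.Adj a b
      rw [τ.map_adj_iff, hσ.1.2, ρ.map_adj_iff]
    · show τ (σ (ρ y')) = x'
      rw [hρ, hσ.2, hτ]
  · intro σ _ σ' _ h
    ext a
    have h1 := congrArg (fun e : Equiv.Perm V => e (ρ.toEquiv.symm a)) h
    simp only [Equiv.trans_apply, Equiv.apply_symm_apply] at h1
    exact τ.toEquiv.injective h1

theorem sum_hit {G : SimpleGraph V} (hG : Trans G) (U I : Finset V) :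
    (Fintype.card V : ℝ) * ∑ σ ∈ auts G, ((I.filter (fun y => σ y ∈ U)).card : ℝ) =
      (auts G).card * (U.card * I.card) := by
  rcases isEmpty_or_nonempty V with hV | ⟨⟨v₀⟩⟩
  · have h1 : U = ∅ := eq_empty_of_isEmpty U
    simp [h1]
  set w : ℕ := wt G v₀ v₀ with hw
  have hwt : ∀ x y, wt G x y = w := fun x y => le_antisymm (wt_le hG _ _ _ _) (wt_le hG _ _ _ _)
  have h1 : ∑ σ ∈ auts G, (I.filter (fun y => σ y ∈ U)).card = U.card * I.card * w := by
    have h2 : ∀ σ : Equiv.Perm V, (I.filter (fun y => σ y ∈ U)).card =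
        ∑ y ∈ I, ∑ x ∈ U, if σ y = x then 1 else 0 := by
      intro σ
      rw [card_filter]
      refine sum_congr rfl fun y _ => ?_
      rw [sum_ite_eq]
    simp_rw [h2]
    rw [sum_comm]
    have h3 : ∀ y ∈ I, ∑ σ ∈ auts G, ∑ x ∈ U, (if σ y = x then 1 else 0) = U.card * w := by
      intro y _
      rw [sum_comm]
      have h4 : ∀ x ∈ U, ∑ σ ∈ auts G, (if σ y = x then 1 else 0) = w := by
        intro x _
        rw [← hwt x y, wt, card_filter]
      rw [sum_congr rfl h4, sum_const, smul_eq_mul]
    rw [sum_congr rfl h3, sum_const, smul_eq_mul]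
    ring
  have h5 : (auts G).card = Fintype.card V * w := by
    have h6 : ∑ x : V, wt G x v₀ = (auts G).card := by
      unfold wt
      rw [card_eq_sum_card_fiberwise (f := fun σ : Equiv.Perm V => σ v₀) (t := univ)
        (fun _ _ => mem_coe.2 (mem_univ _))]
    rw [← h6, sum_congr rfl fun x _ => hwt x v₀, sum_const, smul_eq_mul, card_univ]
  have h7 : (∑ σ ∈ auts G, ((I.filter (fun y => σ y ∈ U)).card : ℝ)) =
      ((U.card * I.card * w : ℕ) : ℝ) := by
    rw [← h1]
    push_cast
    rfl
  rw [h7, h5]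
  push_cast
  ring

theorem exists_hit {G : SimpleGraph V} (hG : Trans G) (U I : Finset V) [Nonempty V] :
    ∃ σ ∈ auts G, (U.card : ℝ) * (I.card / Fintype.card V) ≤
      ((I.filter (fun y => σ y ∈ U)).card : ℝ) := by
  by_contra hcon
  push Not at hcon
  have hn : (0 : ℝ) < Fintype.card V := by exact_mod_cast Fintype.card_pos
  have hne : (auts G).Nonempty := ⟨1, by simp [auts]⟩
  have h1 := sum_lt_sum_of_nonempty hne hcon
  rw [sum_const, nsmul_eq_mul] at h1
  have h2 := sum_hit hG U I
  have h3 : (Fintype.card V : ℝ) * ∑ σ ∈ auts G, ((I.filter (fun y => σ y ∈ U)).card : ℝ) <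
      Fintype.card V * ((auts G).card * (U.card * (I.card / Fintype.card V))) := by
    gcongr
  rw [h2] at h3
  have h4 : (Fintype.card V : ℝ) * ((auts G).card * (U.card * (I.card / Fintype.card V))) =
      (auts G).card * (U.card * I.card) := by
    field_simp
  linarith

/-- **covering by translates** -/
theorem cover {G : SimpleGraph V} (hG : Trans G) [Nonempty V] (I : Finset V)
    (hI : ∀ x ∈ I, ∀ y ∈ I, ¬ G.Adj x y) (m : ℕ) :
    ∃ (U : Finset V) (c : V → ℕ), (U.card : ℝ) ≤
      Fintype.card V * (1 - (I.card : ℝ) / Fintype.card V) ^ m ∧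
      (∀ x, x ∉ U → c x < m) ∧ ∀ x y, x ∉ U → y ∉ U → G.Adj x y → c x ≠ c y := by
  induction m with
  | zero =>
    refine ⟨univ, fun _ => 0, by simp, fun x hx => absurd (mem_univ x) hx,
      fun x _ hx => absurd (mem_univ x) hx⟩
  | succ m ih =>
    obtain ⟨U, c, h1, h2, h3⟩ := ih
    obtain ⟨σ, hσ, hhit⟩ := exists_hit hG U I
    rw [auts, mem_filter] at hσ
    have hIσ : ∀ x ∈ I.image σ, ∀ y ∈ I.image σ, ¬ G.Adj x y := by
      intro x hx y hy
      obtain ⟨x', hx', rfl⟩ := mem_image.1 hx
      obtain ⟨y', hy', rfl⟩ := mem_image.1 hy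
      rw [hσ.2]
      exact hI x' hx' y' hy'
    have hcard : (I.filter (fun y => σ y ∈ U)).card ≤ (U ∩ I.image σ).card := by
      refine card_le_card_of_injOn σ ?_ (σ.injective.injOn)
      intro y hy
      rw [mem_coe, mem_filter] at hy
      rw [mem_coe, mem_inter]
      exact ⟨hy.2, mem_image_of_mem _ hy.1⟩
    refine ⟨U \ I.image σ, fun x => if x ∈ U then m else c x, ?_, ?_, ?_⟩
    · have h4 : ((U \ I.image σ).card : ℝ) = U.card - (U ∩ I.image σ).card := by
        have := card_sdiff_add_card_inter U (I.image σ)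
        rw [← this]
        push_cast
        ring
      have h5 : ((I.filter (fun y => σ y ∈ U)).card : ℝ) ≤ (U ∩ I.image σ).card := by
        exact_mod_cast hcard
      have h6 : (0 : ℝ) ≤ 1 - (I.card : ℝ) / Fintype.card V := by
        have hn : (0 : ℝ) < Fintype.card V := by exact_mod_cast Fintype.card_pos
        have : (I.card : ℝ) ≤ Fintype.card V := by exact_mod_cast card_le_univ I
        have := (div_le_one hn).2 this
        linarith
      rw [h4, pow_succ]
      calc (U.card : ℝ) - (U ∩ I.image σ).card ≤ U.card * (1 - (I.card : ℝ) / Fintype.card V) := by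
            linarith
        _ ≤ (Fintype.card V * (1 - (I.card : ℝ) / Fintype.card V) ^ m) *
            (1 - (I.card : ℝ) / Fintype.card V) := by gcongr
        _ = _ := by ring
    · intro x hx
      by_cases hxU : x ∈ U
      · simp only [if_pos hxU]
        omega
      · simp only [if_neg hxU]
        have := h2 x hxU
        omega
    · intro x y hx hy hxy
      by_cases hxU : x ∈ U
      · have hxI : x ∈ I.image σ := by
          by_contra h
          exact hx (mem_sdiff.2 ⟨hxU, h⟩)
        by_cases hyU : y ∈ U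
        · have hyI : y ∈ I.image σ := by
            by_contra h
            exact hy (mem_sdiff.2 ⟨hyU, h⟩)
          exact absurd hxy (hIσ x hxI y hyI)
        · simp only [if_pos hxU, if_neg hyU]
          have := h2 y hyU
          omega
      · by_cases hyU : y ∈ U
        · simp only [if_neg hxU, if_pos hyU]
          have := h2 x hxU
          omega
        · simp only [if_neg hxU, if_neg hyU]
          exact h3 x y hxU hyU hxy

theorem colorable_of_cover {G : SimpleGraph V} {m : ℕ} {U : Finset V} {c : V → ℕ}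
    (h2 : ∀ x, x ∉ U → c x < m) (h3 : ∀ x y, x ∉ U → y ∉ U → G.Adj x y → c x ≠ c y) :
    G.Colorable (m + U.card) := by
  have h : G.Colorable (Fintype.card (Fin m ⊕ U)) := by
    refine (Coloring.mk (fun x => if hx : x ∈ U then Sum.inr ⟨x, hx⟩ else
      Sum.inl ⟨c x, h2 x hx⟩) ?_ : G.Coloring (Fin m ⊕ U)).colorable
    intro x y hxy
    by_cases hx : x ∈ U
    · by_cases hy : y ∈ U
      · simp only [dif_pos hx, dif_pos hy]
        intro he
        exact hxy.ne (congrArg Subtype.val (Sum.inr_injective he))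
      · simp only [dif_pos hx, dif_neg hy]
        simp
    · by_cases hy : y ∈ U
      · simp only [dif_neg hx, dif_pos hy]
        simp
      · simp only [dif_neg hx, dif_neg hy]
        intro he
        exact h3 x y hx hy hxy (congrArg Fin.val (Sum.inl_injective he))
  simpa using h

/-- the chromatic number of a vertex-transitive graph -/
theorem chrom {G : SimpleGraph V} (hG : Trans G) (I : Finset V) (hI0 : I.Nonempty)
    (hI : ∀ x ∈ I, ∀ y ∈ I, ¬ G.Adj x y) :
    ∃ q : ℕ, G.Colorable q ∧
      (q : ℝ) ≤ 2 * ((Fintype.card V : ℝ) / I.card) * (1 + Real.log I.card) := by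
  have : Nonempty V := ⟨hI0.choose⟩
  set n : ℝ := (Fintype.card V : ℝ) with hn
  set b : ℝ := (I.card : ℝ) with hb
  have hn0 : 0 < n := by rw [hn]; exact_mod_cast Fintype.card_pos
  have hb1 : 1 ≤ b := by rw [hb]; exact_mod_cast hI0.card_pos
  have hbn : b ≤ n := by rw [hb, hn]; exact_mod_cast card_le_univ I
  have hlb : 0 ≤ Real.log b := Real.log_nonneg hb1
  have hnb : 1 ≤ n / b := by rwa [one_le_div (by linarith)]
  set m : ℕ := ⌈n / b * Real.log b⌉₊ with hm
  have hm1 : n / b * Real.log b ≤ m := Nat.le_ceil _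
  have hm2 : (m : ℝ) < n / b * Real.log b + 1 := Nat.ceil_lt_add_one (by positivity)
  obtain ⟨U, c, h1, h2, h3⟩ := cover hG I hI m
  refine ⟨m + U.card, colorable_of_cover h2 h3, ?_⟩
  have h4 : (1 - b / n) ^ m ≤ 1 / b := by
    have e1 : (0 : ℝ) ≤ 1 - b / n := by
      have := (div_le_one hn0).2 hbn
      linarith
    have e2 : (1 - b / n) ^ m ≤ Real.exp (-(b / n)) ^ m := by
      apply pow_le_pow_left₀ e1
      have := Real.add_one_le_exp (-(b / n))
      linarith
    refine e2.trans ?_
    rw [← Real.exp_nat_mul]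
    have e3 : Real.log b ≤ m * (b / n) := by
      have := mul_le_mul_of_nonneg_right hm1 (show 0 ≤ b / n by positivity)
      have e4 : n / b * Real.log b * (b / n) = Real.log b := by field_simp
      linarith
    calc Real.exp (m * -(b / n)) ≤ Real.exp (-Real.log b) := by
          apply Real.exp_le_exp.2
          linarith
      _ = 1 / b := by rw [Real.exp_neg, Real.exp_log (by linarith), one_div]
  have h5 : (U.card : ℝ) ≤ n / b := by
    refine h1.trans ?_
    calc n * (1 - b / n) ^ m ≤ n * (1 / b) := by gcongr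
      _ = n / b := by ring
  push_cast
  nlinarith [mul_nonneg (show 0 ≤ n / b by positivity) hlb]

/-- **vertex-transitive graphs of large degree with large independent sets** -/
theorem trans_room {G : SimpleGraph V} (hG : Trans G) (I : Finset V) (hI0 : I.Nonempty)
    (hI : ∀ x ∈ I, ∀ y ∈ I, ¬ G.Adj x y) {D L : ℕ}
    (hD : ∀ x, D ≤ (univ.filter (fun y => G.Adj x y)).card)
    (hc : 6000 * L * Fintype.card V * (1 + Real.log I.card) *
      √(1 + Real.log (Fintype.card V)) ≤ D * I.card) : Room L G := by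
  intro k hk
  obtain ⟨q, hq1, hq2⟩ := chrom hG I hI0 hI
  have hkq : k < q := by
    by_contra hcon
    push Not at hcon
    exact hk (hq1.mono hcon)
  have : Nonempty V := ⟨hI0.choose⟩
  have hN0 : 0 < Fintype.card V := Fintype.card_pos
  set N := Fintype.card V with hN
  have hN1 : (1 : ℝ) ≤ N := by exact_mod_cast hN0
  have hb1 : (1 : ℝ) ≤ I.card := by exact_mod_cast hI0.card_pos
  have hlb : 0 ≤ Real.log I.card := Real.log_nonneg hb1
  have hlN : 0 ≤ Real.log N := Real.log_nonneg hN1
  set r : ℝ := √(1 + Real.log N) with hr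
  have hr1 : 1 ≤ r := by
    rw [hr, Real.one_le_sqrt]
    linarith
  have hr2 : r ^ 2 = 1 + Real.log N := Real.sq_sqrt (by linarith)
  set t : ℕ := L * q with ht
  have hle : L * (k + 1) ≤ t := Nat.mul_le_mul_left _ hkq
  refine minor_trans (top_minor (β := Fin t) (by simpa using hle)) ?_
  -- the bound for `t`
  have ht1 : 3000 * (t : ℝ) * r ≤ D := by
    have e1 : (t : ℝ) * I.card ≤ 2 * L * N * (1 + Real.log I.card) := by
      rw [ht]
      push_cast
      have e2 : (q : ℝ) * I.card ≤ 2 * N * (1 + Real.log I.card) := by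
        have := mul_le_mul_of_nonneg_right hq2 (show (0 : ℝ) ≤ I.card by linarith)
        refine this.trans (le_of_eq ?_)
        field_simp
      calc (L : ℝ) * q * I.card = L * (q * I.card) := by ring
        _ ≤ L * (2 * N * (1 + Real.log I.card)) := by gcongr
        _ = _ := by ring
    have e3 : 3000 * (t : ℝ) * r * I.card ≤ D * I.card := by
      calc 3000 * (t : ℝ) * r * I.card = 3000 * r * (t * I.card) := by ring
        _ ≤ 3000 * r * (2 * L * N * (1 + Real.log I.card)) := by gcongr
        _ = 6000 * L * N * (1 + Real.log I.card) * r := by ring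
        _ ≤ _ := hc
    exact le_of_mul_le_mul_right e3 (by linarith)
  have hDN : D ≤ N := by
    obtain ⟨x⟩ := ‹Nonempty V›
    exact (hD x).trans (card_le_univ _)
  have htN : t ≤ N := by
    have h1 : (t : ℝ) ≤ 3000 * t * r := by
      have : (0 : ℝ) ≤ t := Nat.cast_nonneg _
      nlinarith
    have h2 : (D : ℝ) ≤ N := by exact_mod_cast hDN
    exact_mod_cast (h1.trans ht1).trans h2
  set l := Nat.log 2 N with hl
  set w := Nat.sqrt (4 * (l + 3)) + 1 with hw
  have hw1 : 4 * (l + 3) ≤ w * w := (Nat.lt_succ_sqrt (4 * (l + 3))).le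
  have hwr : (w : ℝ) ≤ 5 * r := by
    have e1 : (w : ℝ) ≤ √((4 * (l + 3) : ℕ) : ℝ) + 1 := by
      rw [hw]
      push_cast
      have := Real.nat_sqrt_le_real_sqrt (a := 4 * (l + 3))
      push_cast at this
      linarith
    have e2 : (l : ℝ) ≤ 1.45 * Real.log N := by
      have h1 : (2 : ℝ) ^ l ≤ N := by exact_mod_cast Nat.pow_log_le_self 2 (by omega)
      have h2 := Real.log_le_log (by positivity) h1
      rw [Real.log_pow] at h2
      have h3 := Real.log_two_gt_d9
      have h4 : (0 : ℝ) ≤ l := Nat.cast_nonneg _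
      nlinarith
    have e3 : √((4 * (l + 3) : ℕ) : ℝ) ≤ 4 * r := by
      rw [Real.sqrt_le_left (by positivity)]
      push_cast
      rw [mul_pow, hr2]
      nlinarith
    linarith
  refine Pool.Agent.R34.FH.force (⊤ : SimpleGraph (Fin t)) (fun _ => w) (fun _ => ?_) ?_ G
    hN0 ?_
  · rw [hw]
    have : 3 ≤ Nat.sqrt (4 * (l + 3)) := by
      rw [Nat.le_sqrt]
      omega
    omega
  · intro x
    have h1 : ((4 / 5 : ℝ) ^ w) ^ w ≤ (1 / 2) ^ (l + 3) := by
      rw [← pow_mul]
      calc (4 / 5 : ℝ) ^ (w * w) ≤ (4 / 5) ^ (4 * (l + 3)) :=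
            pow_le_pow_of_le_one (by norm_num) (by norm_num) hw1
        _ = ((4 / 5) ^ 4) ^ (l + 3) := by rw [pow_mul]
        _ ≤ (1 / 2) ^ (l + 3) := pow_le_pow_left₀ (by positivity) (by norm_num) _
    rw [sum_const, nsmul_eq_mul]
    have h6 : ∀ s : Finset (Fin t), (s.card : ℝ) ≤ t := by
      intro s
      have : s.card ≤ t := (card_le_univ s).trans (by simp)
      exact_mod_cast this
    have h7 : (t : ℝ) ≤ 2 ^ (l + 1) := by
      have h8 : N < 2 ^ (l + 1) := Nat.lt_pow_succ_log_self (by norm_num) N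
      have h9 : t ≤ 2 ^ (l + 1) := by omega
      exact_mod_cast h9
    refine (mul_le_mul ((h6 _).trans h7) h1 (by positivity) (by positivity)).trans ?_
    have h8 : (2 : ℝ) ^ (l + 1) * (1 / 2) ^ (l + 3) = (2 * (1 / 2)) ^ (l + 1) * (1 / 4) := by
      rw [mul_pow]
      ring
    rw [h8]
    norm_num
  · rw [sum_const, Finset.card_univ, Fintype.card_fin, smul_eq_mul, Pool.Agent.R34.FH.pr_eq]
    have h1 : 600 * (t * w) ≤ D := by
      have h2 : 600 * ((t : ℝ) * w) ≤ D := by
        calc 600 * ((t : ℝ) * w) ≤ 600 * (t * (5 * r)) := by gcongr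
          _ = 3000 * t * r := by ring
          _ ≤ D := ht1
      exact_mod_cast h2
    calc 600 * (t * w) * N ≤ D * N := Nat.mul_le_mul_right _ h1
      _ = ∑ _x : V, D := by rw [sum_const, card_univ, smul_eq_mul, mul_comm]
      _ ≤ ∑ x : V, (Pool.Agent.R34.FH.nb G x).card := by
          refine sum_le_sum fun x _ => (hD x).trans (le_of_eq ?_)
          rw [Pool.Agent.R34.FH.nb]

end Pool.Agent.K4H88.RC
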