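import Mathlib
import Pool.Agent.K4H88.RC.Tail
import Pool.Agent.K4H88.RC.Trans

/-!
# Random Cayley graphs: independent sets and degrees
-/

set_option autoImplicit false

namespace Pool.Agent.K4H88.RC

open Finset Classical

variable {Γ : Type} [Group Γ] [Fintype Γ]

/-- the Cayley graph with connection set `S` -/
def cay {Γ : Type} [Group Γ] (S : Finset Γ) : SimpleGraph Γ where
  Adj x y := x ≠ y ∧ (x⁻¹ * y ∈ S ∨ y⁻¹ * x ∈ S)
  symm := ⟨fun _ _ h => ⟨h.1.symm, h.2.symm⟩⟩
  loopless := ⟨fun _ h => h.1 rfl⟩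

/-- connection sets: closed under inverses, without the identity -/
def IsConn {Γ : Type} [Group Γ] (S : Finset Γ) : Prop := 1 ∉ S ∧ ∀ g ∈ S, g⁻¹ ∈ S

omit [Fintype Γ] in
theorem cay_trans (S : Finset Γ) : Trans (cay S) := by
  intro x y
  refine ⟨⟨Equiv.mulLeft (y * x⁻¹), ?_⟩, ?_⟩
  · intro a b
    have h1 : ∀ a b : Γ, ((y * x⁻¹) * a)⁻¹ * ((y * x⁻¹) * b) = a⁻¹ * b := by
      intro a b
      group
    constructor
    · rintro ⟨h2, h3⟩
      simp only [Equiv.coe_mulLeft, h1] at h2 h3
      exact ⟨fun h => h2 (by rw [h]), h3⟩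
    · rintro ⟨h2, h3⟩
      refine ⟨fun h => h2 ((Equiv.mulLeft (y * x⁻¹)).injective h), ?_⟩
      simp only [Equiv.coe_mulLeft, h1]
      exact h3
  · show y * x⁻¹ * x = y
    group

theorem cay_degree {S : Finset Γ} (hS : IsConn S) (x : Γ) :
    S.card ≤ (univ.filter (fun y => (cay S).Adj x y)).card := by
  refine card_le_card_of_injOn (fun s => x * s) ?_ (fun a _ b _ h => mul_left_cancel h)
  intro s hs
  rw [mem_coe] at hs
  rw [mem_coe, mem_filter]
  refine ⟨mem_univ _, fun h => ?_, Or.inl ?_⟩
  · have h1 : s = 1 := by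
      have h2 : x * 1 = x * s := by rw [mul_one]; exact h
      exact (mul_left_cancel h2).symm
    exact hS.1 (h1 ▸ hs)
  · rw [inv_mul_cancel_left]
    exact hs

/-- representatives of the pairs `{g, g⁻¹}` -/
noncomputable def rep (g : Γ) : Γ :=
  if Fintype.equivFin Γ g ≤ Fintype.equivFin Γ g⁻¹ then g else g⁻¹

theorem rep_or (g : Γ) : rep g = g ∨ rep g = g⁻¹ := by
  unfold rep
  split_ifs
  · exact Or.inl rfl
  · exact Or.inr rfl

theorem rep_inv (g : Γ) : rep g⁻¹ = rep g := by
  unfold rep
  rw [inv_inv]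
  rcases lt_trichotomy (Fintype.equivFin Γ g) (Fintype.equivFin Γ g⁻¹) with h | h | h
  · rw [if_neg (not_le.2 h), if_pos h.le]
  · have h1 := (Fintype.equivFin Γ).injective h
    rw [← h1]
  · rw [if_pos h.le, if_neg (not_le.2 h)]

theorem rep_rep (g : Γ) : rep (rep g) = rep g := by
  rcases rep_or g with h | h
  · rw [h, h]
  · rw [h, rep_inv, h]

theorem rep_one_iff (g : Γ) : rep g = 1 ↔ g = 1 := by
  rcases rep_or g with h | h
  · rw [h]
  · rw [h, inv_eq_one]

theorem eq_of_rep {g i : Γ} (h : rep g = i) : g = i ∨ g = i⁻¹ := by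
  rcases rep_or g with h1 | h1
  · left
    rw [← h1, h]
  · right
    rw [← h, h1, inv_inv]

/-- the connection set given by bits -/
noncomputable def Sc (c : Γ → Bool) : Finset Γ := univ.filter (fun g => g ≠ 1 ∧ c (rep g) = true)

theorem mem_Sc {c : Γ → Bool} {g : Γ} : g ∈ Sc c ↔ g ≠ 1 ∧ c (rep g) = true := by
  simp [Sc]

theorem conn_Sc (c : Γ → Bool) : IsConn (Sc c) := by
  refine ⟨fun h => (mem_Sc.1 h).1 rfl, fun g hg => ?_⟩
  rw [mem_Sc] at hg ⊢
  rw [rep_inv]
  exact ⟨inv_ne_one.2 hg.1, hg.2⟩

omit [Group Γ] in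
theorem card_zero (D : Finset Γ) :
    (univ.filter (fun c : Γ → Bool => ∀ g ∈ D, c g = false)).card =
      2 ^ (Fintype.card Γ - D.card) := by
  have h : (univ.filter (fun c : Γ → Bool => ∀ g ∈ D, c g = false)) =
      Fintype.piFinset (fun g => if g ∈ D then {false} else (univ : Finset Bool)) := by
    ext c
    rw [mem_filter, Fintype.mem_piFinset]
    constructor
    · rintro ⟨-, h⟩ g
      by_cases hg : g ∈ D
      · rw [if_pos hg, mem_singleton]
        exact h g hg
      · rw [if_neg hg]
        exact mem_univ _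
    · intro h
      refine ⟨mem_univ _, fun g hg => ?_⟩
      have := h g
      rwa [if_pos hg, mem_singleton] at this
  rw [h, Fintype.card_piFinset]
  have h2 : ∀ g : Γ, (if g ∈ D then ({false} : Finset Bool) else univ).card =
      if g ∈ D then 1 else 2 := by
    intro g
    split_ifs <;> simp
  simp_rw [h2]
  rw [prod_ite, prod_const_one, one_mul, prod_const]
  congr 1
  have h3 := card_filter_add_card_filter_not (s := (univ : Finset Γ)) (fun g => g ∈ D)
  have h4 : (univ.filter (fun g => g ∈ D)) = D := by ext; simp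
  rw [h4, card_univ] at h3
  omega

/-- the number of vertices outside `A` which are not adjacent to any vertex of `A` -/
noncomputable def ff (A : Finset Γ) (c : Γ → Bool) : ℕ :=
  (univ.filter (fun x => x ∉ A ∧ ∀ a ∈ A, c (rep (a⁻¹ * x)) = false)).card

theorem mean_ff (A : Finset Γ) :
    (Fintype.card Γ - A.card) * 2 ^ (Fintype.card Γ - A.card) ≤ ∑ c, ff A c := by
  have h1 : ∑ c, ff A c = ∑ x ∈ univ \ A,
      (univ.filter (fun c : Γ → Bool => ∀ g ∈ A.image (fun a => rep (a⁻¹ * x)),
        c g = false)).card := by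
    unfold ff
    simp_rw [card_filter]
    rw [sum_comm]
    rw [← sum_subset (subset_univ (univ \ A))]
    · refine sum_congr rfl fun x hx => ?_
      have hx' : x ∉ A := (mem_sdiff.1 hx).2
      refine sum_congr rfl fun c _ => ?_
      congr 1
      simp [hx']
    · intro x _ hx
      have hx' : x ∈ A := by
        by_contra h
        exact hx (mem_sdiff.2 ⟨mem_univ _, h⟩)
      apply sum_eq_zero
      intro c _
      rw [if_neg]
      exact fun h => h.1 hx'
  rw [h1]
  have h2 : ((univ : Finset Γ) \ A).card = Fintype.card Γ - A.card := by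
    rw [card_sdiff_of_subset (subset_univ A), card_univ]
  calc (Fintype.card Γ - A.card) * 2 ^ (Fintype.card Γ - A.card)
      = ∑ _x ∈ (univ : Finset Γ) \ A, 2 ^ (Fintype.card Γ - A.card) := by
        rw [sum_const, h2, smul_eq_mul]
    _ ≤ _ := by
        refine sum_le_sum fun x _ => ?_
        rw [card_zero]
        apply Nat.pow_le_pow_right (by norm_num)
        have : (A.image (fun a => rep (a⁻¹ * x))).card ≤ A.card := card_image_le
        omega

theorem diff_ff (A : Finset Γ) (c : Γ → Bool) (i : Γ) :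
    |(ff A (Function.update c i true) : ℝ) - ff A (Function.update c i false)| ≤
      2 * A.card := by
  set X := univ.filter (fun x => x ∉ A ∧
    ∀ a ∈ A, (Function.update c i true) (rep (a⁻¹ * x)) = false) with hX
  set Y := univ.filter (fun x => x ∉ A ∧
    ∀ a ∈ A, (Function.update c i false) (rep (a⁻¹ * x)) = false) with hY
  have h1 : X ⊆ Y := by
    intro x hx
    rw [hX, mem_filter] at hx
    rw [hY, mem_filter]
    refine ⟨hx.1, hx.2.1, fun a ha => ?_⟩
    have h := hx.2.2 a ha
    by_cases hi : rep (a⁻¹ * x) = i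
    · rw [hi, Function.update_self]
    · rw [Function.update_of_ne hi] at h ⊢
      exact h
  have h2 : Y ⊆ X ∪ (A.image (fun a => a * i) ∪ A.image (fun a => a * i⁻¹)) := by
    intro x hx
    by_cases hxX : x ∈ X
    · exact mem_union_left _ hxX
    · apply mem_union_right
      rw [hY, mem_filter] at hx
      rw [hX, mem_filter] at hxX
      push Not at hxX
      obtain ⟨a, ha, h⟩ := hxX (mem_univ x) hx.2.1
      have h' := hx.2.2 a ha
      have hi : rep (a⁻¹ * x) = i := by
        by_contra hi
        rw [Function.update_of_ne hi] at h h'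
        exact h h'
      rcases eq_of_rep hi with h3 | h3
      · apply mem_union_left
        exact mem_image.2 ⟨a, ha, by rw [← h3]; group⟩
      · apply mem_union_right
        exact mem_image.2 ⟨a, ha, by rw [← h3]; group⟩
  have h3 : X.card ≤ Y.card := card_le_card h1
  have h4 : Y.card ≤ X.card + (A.card + A.card) :=
    (card_le_card h2).trans ((card_union_le _ _).trans (Nat.add_le_add_left
      ((card_union_le _ _).trans (Nat.add_le_add card_image_le card_image_le)) _))
  have h3' : (X.card : ℝ) ≤ Y.card := by exact_mod_cast h3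
  have h4' : (Y.card : ℝ) ≤ X.card + (A.card + A.card) := by exact_mod_cast h4
  show |(X.card : ℝ) - Y.card| ≤ 2 * A.card
  rw [abs_le]
  constructor <;> linarith

/-- few choices of the bits have a maximal independent set inside `A` -/
theorem tail_ff (A : Finset Γ) (hA : 1 ≤ A.card) :
    ((univ.filter (fun c : Γ → Bool => ff A c = 0)).card : ℝ) ≤
      2 ^ Fintype.card Γ * Real.exp (-(((Fintype.card Γ - A.card : ℕ) : ℝ) / 2 ^ A.card) ^ 2 /
        (2 * Fintype.card Γ * A.card ^ 2)) := by
  have hn : 0 < Fintype.card Γ := Fintype.card_pos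
  have hA' : (1 : ℝ) ≤ A.card := by exact_mod_cast hA
  have hAn : A.card ≤ Fintype.card Γ := card_le_univ A
  set t : ℝ := ((Fintype.card Γ - A.card : ℕ) : ℝ) / 2 ^ A.card with ht
  have h := tail (ι := Γ) (d := 2 * A.card) (t := t) (by positivity) (by positivity) hn
    (fun c => (ff A c : ℝ)) (diff_ff A)
  have hmean : t ≤ (∑ c, (ff A c : ℝ)) / 2 ^ Fintype.card Γ := by
    rw [le_div_iff₀ (by positivity), ht]
    have h1 : (((Fintype.card Γ - A.card) * 2 ^ (Fintype.card Γ - A.card) : ℕ) : ℝ) ≤
        ∑ c, (ff A c : ℝ) := by exact_mod_cast mean_ff A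
    refine le_trans (le_of_eq ?_) h1
    have h2 : (2 : ℝ) ^ Fintype.card Γ = 2 ^ A.card * 2 ^ (Fintype.card Γ - A.card) := by
      rw [← pow_add]
      congr 1
      omega
    rw [h2, Nat.cast_mul, Nat.cast_pow]
    push_cast
    field_simp
  refine le_trans ?_ (h.trans (le_of_eq ?_))
  · have : (univ.filter (fun c : Γ → Bool => ff A c = 0)) ⊆
        univ.filter (fun c => (ff A c : ℝ) ≤ (∑ c, (ff A c : ℝ)) / 2 ^ Fintype.card Γ - t) := by
      intro c hc
      rw [mem_filter] at hc ⊢
      refine ⟨hc.1, ?_⟩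
      rw [hc.2]
      push_cast
      linarith
    exact_mod_cast card_le_card this
  · congr 2
    have hn' : (Fintype.card Γ : ℝ) ≠ 0 := by positivity
    have hA0 : (A.card : ℝ) ≠ 0 := by positivity
    field_simp

/-- large independent sets -/
theorem indep {a : ℕ} (ha : a ≤ Fintype.card Γ) {c : Γ → Bool}
    (h : ∀ A : Finset Γ, A.card = a → ff A c ≠ 0) :
    ∃ I : Finset Γ, I.card = a + 1 ∧ ∀ x ∈ I, ∀ y ∈ I, ¬ (cay (Sc c)).Adj x y := by
  have key : ∀ i, i ≤ a + 1 → ∃ I : Finset Γ, I.card = i ∧
      ∀ x ∈ I, ∀ y ∈ I, ¬ (cay (Sc c)).Adj x y := by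
    intro i
    induction i with
    | zero => exact fun _ => ⟨∅, by simp, by simp⟩
    | succ i ih =>
      intro hi
      obtain ⟨I, h1, h2⟩ := ih (by omega)
      obtain ⟨A, h3, h4⟩ := exists_superset_card_eq (s := I) (n := a) (by omega) ha
      have h5 := h A h4
      unfold ff at h5
      rw [card_ne_zero] at h5
      obtain ⟨x, hx⟩ := h5
      obtain ⟨-, hxA, hx2⟩ := mem_filter.1 hx
      have hxI : x ∉ I := fun h => hxA (h3 h)
      have hno : ∀ y ∈ I, ¬ (cay (Sc c)).Adj y x := by
        rintro y hy ⟨-, h6 | h6⟩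
        · have := (mem_Sc.1 h6).2
          rw [hx2 y (h3 hy)] at this
          exact Bool.false_ne_true this
        · have h7 := (conn_Sc c).2 _ h6
          have h8 : (x⁻¹ * y)⁻¹ = y⁻¹ * x := by group
          rw [h8] at h7
          have := (mem_Sc.1 h7).2
          rw [hx2 y (h3 hy)] at this
          exact Bool.false_ne_true this
      refine ⟨insert x I, by rw [card_insert_of_notMem hxI, h1], ?_⟩
      intro y hy z hz
      rcases mem_insert.1 hy with hyx | hy'
      · rcases mem_insert.1 hz with hzx | hz'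
        · rw [hyx, hzx]
          exact fun h => h.ne rfl
        · rw [hyx]
          exact fun h => hno z hz' h.symm
      · rcases mem_insert.1 hz with hzx | hz'
        · rw [hzx]
          exact hno y hy'
        · exact h2 y hy' z hz'
  exact key (a + 1) le_rfl

/-! ### The degree -/

theorem card_true (g : Γ) :
    (univ.filter (fun c : Γ → Bool => c g = true)).card = 2 ^ (Fintype.card Γ - 1) := by
  have h1 := card_zero ({g} : Finset Γ)
  simp only [mem_singleton, forall_eq, card_singleton] at h1
  have h2 := card_filter_add_card_filter_not (s := (univ : Finset (Γ → Bool)))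
    (fun c => c g = false)
  have h3 : (univ.filter (fun c : Γ → Bool => ¬ c g = false)) =
      univ.filter (fun c : Γ → Bool => c g = true) := by
    ext c
    simp
  have hn : 0 < Fintype.card Γ := Fintype.card_pos
  rw [h1, h3, card_univ, Fintype.card_fun, Fintype.card_bool] at h2
  have h4 : 2 ^ Fintype.card Γ = 2 ^ (Fintype.card Γ - 1) + 2 ^ (Fintype.card Γ - 1) := by
    rw [← two_mul, ← pow_succ']
    congr 1
    omega
  omega

theorem mean_Sc : ∑ c : Γ → Bool, (Sc c).card =
    (Fintype.card Γ - 1) * 2 ^ (Fintype.card Γ - 1) := by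
  unfold Sc
  simp_rw [card_filter]
  rw [sum_comm]
  have h1 : ∀ g : Γ, ∑ c : Γ → Bool, (if g ≠ 1 ∧ c (rep g) = true then 1 else 0) =
      if g ≠ 1 then 2 ^ (Fintype.card Γ - 1) else 0 := by
    intro g
    split_ifs with hg
    · rw [← card_true (rep g), card_filter]
      refine sum_congr rfl fun c _ => ?_
      simp [hg]
    · apply sum_eq_zero
      intro c _
      rw [if_neg]
      exact fun h => hg h.1
  simp_rw [h1]
  rw [← sum_filter, sum_const, smul_eq_mul]
  congr 1
  rw [filter_ne', card_erase_of_mem (mem_univ _), card_univ]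

theorem diff_Sc (c : Γ → Bool) (i : Γ) :
    |((Sc (Function.update c i true)).card : ℝ) - (Sc (Function.update c i false)).card| ≤ 2 := by
  have h1 : Sc (Function.update c i false) ⊆ Sc (Function.update c i true) := by
    intro g hg
    rw [mem_Sc] at hg ⊢
    refine ⟨hg.1, ?_⟩
    by_cases hi : rep g = i
    · rw [hi, Function.update_self]
    · rw [Function.update_of_ne hi] at hg ⊢
      exact hg.2
  have h2 : Sc (Function.update c i true) ⊆ Sc (Function.update c i false) ∪ {i, i⁻¹} := by
    intro g hg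
    rw [mem_Sc] at hg
    rw [mem_union, mem_Sc]
    by_cases hi : rep g = i
    · right
      rw [mem_insert, mem_singleton]
      exact eq_of_rep hi
    · left
      rw [Function.update_of_ne hi] at hg ⊢
      exact hg
  have h3 := card_le_card h1
  have h4 : (Sc (Function.update c i true)).card ≤ (Sc (Function.update c i false)).card + 2 :=
    (card_le_card h2).trans ((card_union_le _ _).trans (Nat.add_le_add_left (card_le_two) _))
  have h3' : ((Sc (Function.update c i false)).card : ℝ) ≤
    (Sc (Function.update c i true)).card := by exact_mod_cast h3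
  have h4' : ((Sc (Function.update c i true)).card : ℝ) ≤
    (Sc (Function.update c i false)).card + 2 := by exact_mod_cast h4
  rw [abs_le]
  constructor <;> linarith

theorem tail_Sc (hn : 4 ≤ Fintype.card Γ) :
    ((univ.filter (fun c : Γ → Bool => ((Sc c).card : ℝ) ≤ Fintype.card Γ / 4)).card : ℝ) ≤
      2 ^ Fintype.card Γ * Real.exp (-((Fintype.card Γ : ℝ) / 128)) := by
  have hnR : (4 : ℝ) ≤ Fintype.card Γ := by exact_mod_cast hn
  have h := tail (ι := Γ) (d := 2) (t := (Fintype.card Γ : ℝ) / 8) (by norm_num) (by positivity)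
    (by omega) (fun c => ((Sc c).card : ℝ)) diff_Sc
  have hmean : (∑ c : Γ → Bool, ((Sc c).card : ℝ)) / 2 ^ Fintype.card Γ =
      ((Fintype.card Γ : ℝ) - 1) / 2 := by
    have h1 : (∑ c : Γ → Bool, ((Sc c).card : ℝ)) =
        (((Fintype.card Γ - 1) * 2 ^ (Fintype.card Γ - 1) : ℕ) : ℝ) := by
      rw [← mean_Sc]
      push_cast
      rfl
    have h2 : (2 : ℝ) ^ Fintype.card Γ = 2 * 2 ^ (Fintype.card Γ - 1) := by
      rw [← pow_succ']
      congr 1
      omega
    rw [h1, h2, Nat.cast_mul, Nat.cast_pow, Nat.cast_sub (by omega)]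
    push_cast
    field_simp
  refine le_trans ?_ (h.trans (le_of_eq ?_))
  · have : (univ.filter (fun c : Γ → Bool => ((Sc c).card : ℝ) ≤ Fintype.card Γ / 4)) ⊆
        univ.filter (fun c => ((Sc c).card : ℝ) ≤
          (∑ c : Γ → Bool, ((Sc c).card : ℝ)) / 2 ^ Fintype.card Γ - Fintype.card Γ / 8) := by
      intro c hc
      rw [mem_filter] at hc ⊢
      refine ⟨hc.1, ?_⟩
      rw [hmean]
      linarith [hc.2]
    exact_mod_cast card_le_card this
  · congr 2
    have hn' : (Fintype.card Γ : ℝ) ≠ 0 := by positivity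
    field_simp
    ring

/-! ### From bits to connection sets -/

/-- the connection sets -/
noncomputable def conns (Γ : Type) [Group Γ] [Fintype Γ] : Finset (Finset Γ) :=
  univ.filter (fun S => IsConn S)

theorem fiber_le (S S' : Finset Γ) (hS' : IsConn S') :
    (univ.filter (fun c : Γ → Bool => Sc c = S)).card ≤
      (univ.filter (fun c : Γ → Bool => Sc c = S')).card := by
  refine card_le_card_of_injOn
    (fun c g => if rep g = g ∧ g ≠ 1 then decide (g ∈ S') else c g) ?_ ?_
  · intro c _
    rw [mem_coe, mem_filter]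
    refine ⟨mem_univ _, ?_⟩
    ext g
    rw [mem_Sc]
    constructor
    · rintro ⟨h1, h2⟩
      beta_reduce at h2
      rw [if_pos ⟨rep_rep g, fun h => h1 ((rep_one_iff g).1 h)⟩, decide_eq_true_eq] at h2
      rcases rep_or g with h3 | h3
      · rwa [h3] at h2
      · rw [h3] at h2
        have := hS'.2 _ h2
        rwa [inv_inv] at this
    · intro hg
      have h1 : g ≠ 1 := fun h => hS'.1 (h ▸ hg)
      refine ⟨h1, ?_⟩
      beta_reduce
      rw [if_pos ⟨rep_rep g, fun h => h1 ((rep_one_iff g).1 h)⟩, decide_eq_true_eq]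
      rcases rep_or g with h3 | h3
      · rwa [h3]
      · rw [h3]
        exact hS'.2 _ hg
  · intro c hc c' hc' h
    rw [mem_coe, mem_filter] at hc hc'
    funext g
    have h1 := congrFun h g
    simp only at h1
    by_cases hg : rep g = g ∧ g ≠ 1
    · have e : ∀ b : Γ → Bool, (g ∈ Sc b) ↔ b g = true := by
        intro b
        rw [mem_Sc, hg.1]
        simp [hg.2]
      have h2 := (e c).symm.trans ((by rw [hc.2, hc'.2] : g ∈ Sc c ↔ g ∈ Sc c').trans (e c'))
      cases hb : c g <;> cases hb' : c' g <;> simp_all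
    · rwa [if_neg hg, if_neg hg] at h1

/-- **from bits to connection sets** -/
theorem transfer (bad : Finset Γ → Prop) {ε : ℝ}
    (h : ((univ.filter (fun c : Γ → Bool => bad (Sc c))).card : ℝ) ≤ ε * 2 ^ Fintype.card Γ) :
    (((conns Γ).filter (fun S => bad S)).card : ℝ) ≤ ε * (conns Γ).card := by
  have hemp : IsConn (∅ : Finset Γ) := ⟨by simp, by simp⟩
  set w : ℕ := (univ.filter (fun c : Γ → Bool => Sc c = ∅)).card with hw
  have hw1 : ∀ S ∈ conns Γ, (univ.filter (fun c : Γ → Bool => Sc c = S)).card = w := by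
    intro S hS
    exact le_antisymm (fiber_le _ _ hemp) (fiber_le _ _ (mem_filter.1 hS).2)
  have hw0 : 0 < w := by
    rw [hw, card_pos]
    refine ⟨fun _ => false, mem_filter.2 ⟨mem_univ _, ?_⟩⟩
    ext g
    simp [mem_Sc]
  have hall : ∀ P : Finset Γ → Prop,
      (univ.filter (fun c : Γ → Bool => P (Sc c))).card =
        ((conns Γ).filter (fun S => P S)).card * w := by
    intro P
    rw [card_eq_sum_card_fiberwise (f := fun c : Γ → Bool => Sc c)
      (t := (conns Γ).filter (fun S => P S))]
    · rw [← smul_eq_mul, ← sum_const]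
      refine sum_congr rfl fun S hS => ?_
      rw [mem_filter] at hS
      rw [← hw1 S hS.1]
      congr 1
      ext c
      simp only [mem_filter, mem_univ, true_and]
      constructor
      · exact fun h => h.2
      · intro h
        exact ⟨by rw [h]; exact hS.2, h⟩
    · intro c hc
      rw [mem_coe, mem_filter] at hc
      rw [mem_coe, mem_filter, conns, mem_filter]
      exact ⟨⟨mem_univ _, conn_Sc c⟩, hc.2⟩
  have h1 := hall bad
  have h2 := hall (fun _ => True)
  simp only [filter_true, card_univ, Fintype.card_fun, Fintype.card_bool] at h2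
  have h2' : (2 : ℝ) ^ Fintype.card Γ = (conns Γ).card * w := by exact_mod_cast h2
  have h1' : ((univ.filter (fun c : Γ → Bool => bad (Sc c))).card : ℝ) =
      ((conns Γ).filter (fun S => bad S)).card * w := by exact_mod_cast h1
  rw [h1', h2', ← mul_assoc] at h
  have hw' : (0 : ℝ) < w := by exact_mod_cast hw0
  exact le_of_mul_le_mul_right h hw'

end Pool.Agent.K4H88.RC
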