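import Mathlib
import Pool.Agent.K4H88.RC.Cay

/-!
# Almost all Cayley graphs
-/

set_option autoImplicit false

namespace Pool.Agent.K4H88.RC

open Finset Classical Pool.Agent.K4H88.SP

/-- the union bound -/
theorem union {Γ : Type} [Group Γ] [Fintype Γ] {a : ℕ} (ha : 1 ≤ a) (hn : 4 ≤ Fintype.card Γ) :
    ((univ.filter (fun c : Γ → Bool => (∃ A : Finset Γ, A.card = a ∧ ff A c = 0) ∨
      ((Sc c).card : ℝ) ≤ Fintype.card Γ / 4)).card : ℝ) ≤
      2 ^ Fintype.card Γ * ((Fintype.card Γ : ℝ) ^ a *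
        Real.exp (-(((Fintype.card Γ - a : ℕ) : ℝ) / 2 ^ a) ^ 2 /
          (2 * Fintype.card Γ * (a : ℝ) ^ 2)) + Real.exp (-((Fintype.card Γ : ℝ) / 128))) := by
  have h1 : (univ.filter (fun c : Γ → Bool => (∃ A : Finset Γ, A.card = a ∧ ff A c = 0) ∨
      ((Sc c).card : ℝ) ≤ Fintype.card Γ / 4)) ⊆
      ((univ.powersetCard a : Finset (Finset Γ)).biUnion
        (fun A => univ.filter (fun c : Γ → Bool => ff A c = 0))) ∪
      univ.filter (fun c : Γ → Bool => ((Sc c).card : ℝ) ≤ Fintype.card Γ / 4) := by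
    intro c hc
    rw [mem_filter] at hc
    rw [mem_union]
    rcases hc.2 with ⟨A, h2, h3⟩ | h2
    · left
      rw [mem_biUnion]
      exact ⟨A, mem_powersetCard.2 ⟨subset_univ _, h2⟩, mem_filter.2 ⟨mem_univ _, h3⟩⟩
    · right
      exact mem_filter.2 ⟨mem_univ _, h2⟩
  set E : ℝ := Real.exp (-(((Fintype.card Γ - a : ℕ) : ℝ) / 2 ^ a) ^ 2 /
          (2 * Fintype.card Γ * (a : ℝ) ^ 2)) with hE
  have h2 : (((univ.powersetCard a : Finset (Finset Γ)).biUnion
        (fun A => univ.filter (fun c : Γ → Bool => ff A c = 0))).card : ℝ) ≤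
      (Fintype.card Γ : ℝ) ^ a * (2 ^ Fintype.card Γ * E) := by
    calc (((univ.powersetCard a : Finset (Finset Γ)).biUnion
        (fun A => univ.filter (fun c : Γ → Bool => ff A c = 0))).card : ℝ)
        ≤ ∑ A ∈ (univ.powersetCard a : Finset (Finset Γ)),
          ((univ.filter (fun c : Γ → Bool => ff A c = 0)).card : ℝ) := by
          exact_mod_cast card_biUnion_le
      _ ≤ ∑ A ∈ (univ.powersetCard a : Finset (Finset Γ)), 2 ^ Fintype.card Γ * E := by
          refine sum_le_sum fun A hA => ?_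
          have hA' := (mem_powersetCard.1 hA).2
          have := tail_ff A (by omega)
          rwa [hA'] at this
      _ = ((univ.powersetCard a : Finset (Finset Γ)).card : ℝ) * (2 ^ Fintype.card Γ * E) := by
          rw [sum_const, nsmul_eq_mul]
      _ ≤ _ := by
          have h3 : (univ.powersetCard a : Finset (Finset Γ)).card ≤ Fintype.card Γ ^ a := by
            rw [card_powersetCard, card_univ]
            exact Nat.choose_le_pow _ _
          have h4 : ((univ.powersetCard a : Finset (Finset Γ)).card : ℝ) ≤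
            (Fintype.card Γ : ℝ) ^ a := by exact_mod_cast h3
          gcongr
  have h3 := tail_Sc (Γ := Γ) hn
  calc ((univ.filter (fun c : Γ → Bool => (∃ A : Finset Γ, A.card = a ∧ ff A c = 0) ∨
      ((Sc c).card : ℝ) ≤ Fintype.card Γ / 4)).card : ℝ) ≤
        (((univ.powersetCard a : Finset (Finset Γ)).biUnion
          (fun A => univ.filter (fun c : Γ → Bool => ff A c = 0))).card : ℝ) +
        ((univ.filter (fun c : Γ → Bool => ((Sc c).card : ℝ) ≤ Fintype.card Γ / 4)).card : ℝ) := by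
        exact_mod_cast (card_le_card h1).trans (card_union_le _ _)
    _ ≤ _ := by
        have := add_le_add h2 h3
        refine this.trans (le_of_eq ?_)
        ring

/-- the numerical estimate for the union bound -/
theorem num1 (E : ℝ) : ∃ a₀ : ℕ, 1 ≤ a₀ ∧ ∀ a : ℕ, a₀ ≤ a → ∀ n : ℕ, 2 ^ (4 * a) ≤ n →
    n < 2 ^ (4 * (a + 1)) →
    (n : ℝ) ^ a * Real.exp (-(((n - a : ℕ) : ℝ) / 2 ^ a) ^ 2 / (2 * n * (a : ℝ) ^ 2)) ≤
      Real.exp (-E) ∧ Real.exp (-((n : ℝ) / 128)) ≤ Real.exp (-E) := by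
  refine ⟨max 9600 ⌈E⌉₊, le_trans (by norm_num) (le_max_left _ _), ?_⟩
  intro a ha n hn1 hn2
  have ha1 : 9600 ≤ a := (le_max_left _ _).trans ha
  have ha2 : E ≤ a := (Nat.le_ceil E).trans (by exact_mod_cast (le_max_right _ _).trans ha)
  have haR : (9600 : ℝ) ≤ a := by exact_mod_cast ha1
  have hnR : (2 : ℝ) ^ (4 * a) ≤ n := by exact_mod_cast hn1
  have hnR2 : (n : ℝ) ≤ 2 ^ (4 * (a + 1)) := by exact_mod_cast hn2.le
  have hn0 : (0 : ℝ) < n := lt_of_lt_of_le (by positivity) hnR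
  have h16 : (2 : ℝ) ^ (4 * a) = 4 ^ a * 4 ^ a := by
    rw [← mul_pow, show (4 : ℝ) * 4 = 2 ^ 4 by norm_num, ← pow_mul]
  -- `a ^ 5 / 24 ≤ 4 ^ a`
  have h4 : (a : ℝ) ^ 5 / 120 ≤ 4 ^ a := by
    have h1 := Real.pow_div_factorial_le_exp (a : ℝ) (by positivity) 5
    have h2 : (Nat.factorial 5 : ℝ) = 120 := by norm_num [Nat.factorial]
    rw [h2] at h1
    refine h1.trans ?_
    have h3 : Real.exp (a : ℝ) = Real.exp 1 ^ a := by
      rw [← Real.exp_nat_mul, mul_one]
    rw [h3]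
    apply pow_le_pow_left₀ (Real.exp_pos _).le
    have := Real.exp_one_lt_d9
    linarith
  have h4a : (a : ℝ) ≤ 4 ^ a := by
    have : a < 4 ^ a := Nat.lt_pow_self (by norm_num)
    exact_mod_cast this.le
  have h41 : (1 : ℝ) ≤ 4 ^ a := by linarith
  constructor
  · have hna : (n : ℝ) / 2 ≤ ((n - a : ℕ) : ℝ) := by
      have h1 : 2 * a ≤ n := by
        have h2 : 2 * a ≤ 2 ^ (4 * a) := by
          have h3 : 2 * a < 2 ^ (2 * a) := Nat.lt_two_pow_self
          have h4 : 2 ^ (2 * a) ≤ 2 ^ (4 * a) := Nat.pow_le_pow_right (by norm_num) (by omega)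
          omega
        omega
      rw [Nat.cast_sub (by omega)]
      have : (2 : ℝ) * a ≤ n := by exact_mod_cast h1
      linarith
    have hexp : 4 ^ a / (8 * (a : ℝ) ^ 2) ≤
        (((n - a : ℕ) : ℝ) / 2 ^ a) ^ 2 / (2 * n * (a : ℝ) ^ 2) := by
      calc 4 ^ a / (8 * (a : ℝ) ^ 2) = (2 : ℝ) ^ (4 * a) / (8 * 4 ^ a * (a : ℝ) ^ 2) := by
            rw [h16]
            field_simp
        _ ≤ n / (8 * 4 ^ a * (a : ℝ) ^ 2) := by gcongr
        _ = ((n : ℝ) / 2 / 2 ^ a) ^ 2 / (2 * n * (a : ℝ) ^ 2) := by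
            have : (4 : ℝ) ^ a = 2 ^ a * 2 ^ a := by rw [← mul_pow]; norm_num
            rw [this]
            field_simp
            ring
        _ ≤ _ := by gcongr
    have hpow : (n : ℝ) ^ a ≤ Real.exp (4 * (a + 1) * a) := by
      calc (n : ℝ) ^ a ≤ ((2 : ℝ) ^ (4 * (a + 1))) ^ a := by gcongr
        _ ≤ (Real.exp 1 ^ (4 * (a + 1))) ^ a := by
            gcongr
            have := Real.exp_one_gt_d9
            linarith
        _ = Real.exp (4 * (a + 1) * a) := by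
            rw [← pow_mul, ← Real.exp_nat_mul]
            push_cast
            congr 1
            ring
    calc (n : ℝ) ^ a * Real.exp (-(((n - a : ℕ) : ℝ) / 2 ^ a) ^ 2 / (2 * n * (a : ℝ) ^ 2))
        ≤ Real.exp (4 * (a + 1) * a) * Real.exp (-(4 ^ a / (8 * (a : ℝ) ^ 2))) := by
          have : -(((n - a : ℕ) : ℝ) / 2 ^ a) ^ 2 / (2 * n * (a : ℝ) ^ 2) ≤
              -(4 ^ a / (8 * (a : ℝ) ^ 2)) := by
            rw [neg_div]
            linarith
          gcongr
      _ = Real.exp (4 * (a + 1) * a - 4 ^ a / (8 * (a : ℝ) ^ 2)) := by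
          rw [← Real.exp_add]
          congr 1
      _ ≤ Real.exp (-E) := by
          apply Real.exp_le_exp.2
          have h5 : (a : ℝ) ^ 3 / 960 ≤ 4 ^ a / (8 * (a : ℝ) ^ 2) := by
            rw [div_le_div_iff₀ (by norm_num) (by positivity)]
            nlinarith
          have h6 : (a : ℝ) ^ 2 * 10 ≤ (a : ℝ) ^ 3 / 960 := by
            rw [le_div_iff₀ (by norm_num)]
            nlinarith [mul_le_mul_of_nonneg_left haR (sq_nonneg (a : ℝ))]
          nlinarith
  · apply Real.exp_le_exp.2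
    have h5 : 128 * (a : ℝ) ≤ n := by
      refine le_trans ?_ hnR
      rw [h16]
      have h6 : (128 : ℝ) ≤ 4 ^ a := by
        calc (128 : ℝ) ≤ 4 ^ 4 := by norm_num
          _ ≤ 4 ^ a := pow_le_pow_right₀ (by norm_num) (by omega)
      gcongr
    linarith

/-- the numerical estimate for the deterministic theorem -/
theorem num2 (L : ℕ) : ∃ a₀ : ℕ, ∀ a : ℕ, a₀ ≤ a → ∀ n D : ℕ, 1 ≤ n →
    n < 2 ^ (4 * (a + 1)) → (n : ℝ) / 8 ≤ D →
    6000 * (L : ℝ) * n * (1 + Real.log ((a + 1 : ℕ) : ℝ)) * √(1 + Real.log n) ≤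
      D * ((a + 1 : ℕ) : ℝ) := by
  refine ⟨(1000000 * (L + 1)) ^ 4, ?_⟩
  intro a ha n D hn1 hn hD
  set y : ℝ := ((a + 1 : ℕ) : ℝ) with hy
  have hLR : (0 : ℝ) ≤ L := Nat.cast_nonneg L
  have hy1 : (1000000 * ((L : ℝ) + 1)) ^ 4 ≤ y := by
    rw [hy]
    exact_mod_cast ha.trans (Nat.le_succ a)
  have hy0 : 0 ≤ y := by positivity
  set z : ℝ := √(√y) with hz
  have hz2 : z ^ 2 = √y := Real.sq_sqrt (Real.sqrt_nonneg _)
  have hz4 : z ^ 4 = y := by
    rw [show z ^ 4 = (z ^ 2) ^ 2 by ring, hz2, Real.sq_sqrt hy0]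
  have hz0 : 0 ≤ z := Real.sqrt_nonneg _
  have hz1 : 1000000 * ((L : ℝ) + 1) ≤ z := by
    rw [← hz4] at hy1
    exact le_of_pow_le_pow_left₀ (by norm_num) hz0 hy1
  have hzpos : 0 < z := by linarith
  have hlog : 1 + Real.log y ≤ 4 * z := by
    rw [← hz4, Real.log_pow]
    have := Real.log_le_sub_one_of_pos hzpos
    push_cast
    linarith
  have hlog0 : 0 ≤ 1 + Real.log y := by
    have : 0 ≤ Real.log y := Real.log_nonneg (by
      rw [← hz4]
      have : (1 : ℝ) ≤ z := by linarith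
      exact one_le_pow₀ this)
    linarith
  have hnR : (1 : ℝ) ≤ n := by exact_mod_cast hn1
  have hln : 1 + Real.log n ≤ 4 * y := by
    have h1 : (n : ℝ) ≤ 2 ^ (4 * (a + 1)) := by exact_mod_cast hn.le
    have h2 := Real.log_le_log (by linarith) h1
    rw [Real.log_pow] at h2
    have h3 := Real.log_two_lt_d9
    have h4 : ((4 * (a + 1) : ℕ) : ℝ) = 4 * y := by rw [hy]; push_cast; ring
    rw [h4] at h2
    have h5 : (1 : ℝ) ≤ z := by linarith
    have h6 : z ≤ z ^ 4 := le_self_pow₀ h5 (by norm_num)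
    nlinarith
  have hsq : √(1 + Real.log n) ≤ 2 * z ^ 2 := by
    rw [Real.sqrt_le_left (by positivity)]
    calc 1 + Real.log n ≤ 4 * y := hln
      _ = (2 * z ^ 2) ^ 2 := by rw [← hz4]; ring
  calc 6000 * (L : ℝ) * n * (1 + Real.log y) * √(1 + Real.log n)
      ≤ 6000 * (L : ℝ) * n * (4 * z) * (2 * z ^ 2) := by gcongr
    _ = n / 8 * (384000 * L) * z ^ 3 := by ring
    _ ≤ n / 8 * z * z ^ 3 := by
        gcongr
        linarith
    _ = n / 8 * y := by rw [← hz4]; ring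
    _ ≤ D * y := by gcongr

/-- **almost all Cayley graphs** -/
theorem almost_all (L : ℕ) {ε : ℝ} (hε : 0 < ε) : ∃ n₀ : ℕ, ∀ (Γ : Type) [Group Γ] [Fintype Γ],
    n₀ ≤ Fintype.card Γ →
    (((conns Γ).filter (fun S => ¬ Room L (cay S))).card : ℝ) ≤ ε * (conns Γ).card := by
  obtain ⟨a₁, h11, h12⟩ := num1 (Real.log (2 / ε))
  obtain ⟨a₂, h2⟩ := num2 L
  refine ⟨2 ^ (4 * (a₁ + a₂)), ?_⟩
  intro Γ _ _ hn
  set n := Fintype.card Γ with hnn
  set a := Nat.log 2 n / 4 with ha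
  have hn0 : n ≠ 0 := Fintype.card_ne_zero
  have hlog : 4 * (a₁ + a₂) ≤ Nat.log 2 n := Nat.le_log_of_pow_le (by norm_num) hn
  have haa : a₁ + a₂ ≤ a := by rw [ha]; omega
  have hn1 : 2 ^ (4 * a) ≤ n := by
    calc 2 ^ (4 * a) ≤ 2 ^ (Nat.log 2 n) := Nat.pow_le_pow_right (by norm_num) (by omega)
      _ ≤ n := Nat.pow_log_le_self 2 hn0
  have hn2 : n < 2 ^ (4 * (a + 1)) := by
    calc n < 2 ^ (Nat.log 2 n + 1) := Nat.lt_pow_succ_log_self (by norm_num) n
      _ ≤ 2 ^ (4 * (a + 1)) := Nat.pow_le_pow_right (by norm_num) (by omega)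
  have hn16 : 16 ≤ n := by
    calc 16 = 2 ^ (4 * 1) := by norm_num
      _ ≤ 2 ^ (4 * a) := Nat.pow_le_pow_right (by norm_num) (by omega)
      _ ≤ n := hn1
  obtain ⟨e1, e2⟩ := h12 a (by omega) n hn1 hn2
  have hexp : Real.exp (-Real.log (2 / ε)) = ε / 2 := by
    rw [Real.exp_neg, Real.exp_log (by positivity), inv_div]
  rw [hexp] at e1 e2
  suffices hsuf : ((univ.filter (fun c : Γ → Bool => ¬ Room L (cay (Sc c)))).card : ℝ) ≤
      ε * 2 ^ n by
    have h3 := transfer (Γ := Γ) (fun S => ¬ Room L (cay S)) (ε := ε) (by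
      rw [← hnn]
      convert hsuf)
    convert h3
  have hu := union (Γ := Γ) (a := a) (by omega) (by omega)
  rw [← hnn] at hu
  refine le_trans ?_ (hu.trans ?_)
  · have hsub : (univ.filter (fun c : Γ → Bool => ¬ Room L (cay (Sc c)))) ⊆
        univ.filter (fun c : Γ → Bool => (∃ A : Finset Γ, A.card = a ∧ ff A c = 0) ∨
          ((Sc c).card : ℝ) ≤ n / 4) := by
      intro c hc
      rw [mem_filter] at hc ⊢
      refine ⟨hc.1, ?_⟩
      by_contra hcon
      push Not at hcon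
      obtain ⟨h3, h4⟩ := hcon
      apply hc.2
      have han : a ≤ n := by
        have : a < 2 ^ (4 * a) := by
          calc a < 2 ^ a := Nat.lt_two_pow_self
            _ ≤ 2 ^ (4 * a) := Nat.pow_le_pow_right (by norm_num) (by omega)
        omega
      obtain ⟨I, h5, h6⟩ := indep han h3
      have hD := h2 a (by omega) n (Sc c).card (by omega) hn2 (by
        have : (0 : ℝ) ≤ n := Nat.cast_nonneg n
        linarith)
      refine trans_room (cay_trans (Sc c)) I (by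
        rw [← card_pos, h5]
        omega) h6 (D := (Sc c).card) (fun x => ?_) (by
        rw [h5]
        exact hD)
      exact cay_degree (conn_Sc c) x
    exact_mod_cast card_le_card hsub
  · have : (n : ℝ) ^ a * Real.exp (-(((n - a : ℕ) : ℝ) / 2 ^ a) ^ 2 / (2 * n * (a : ℝ) ^ 2)) +
        Real.exp (-((n : ℝ) / 128)) ≤ ε := by linarith
    calc 2 ^ n * ((n : ℝ) ^ a * Real.exp (-(((n - a : ℕ) : ℝ) / 2 ^ a) ^ 2 /
          (2 * n * (a : ℝ) ^ 2)) + Real.exp (-((n : ℝ) / 128))) ≤ 2 ^ n * ε := by gcongr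
      _ = ε * 2 ^ n := by ring

end Pool.Agent.K4H88.RC
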